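import Pool.Agent.Helper35.CL.All

/-!
# The sharp pinching constant of closed ancient surfaces

Every ancient mean curvature flow of a closed connected surface, in any codimension, which is
uniformly pinched below `5/6` consists of round spheres in one fixed three-dimensional affine
subspace, and `5/6` is the largest constant with this property. No entropy or growth condition is
assumed.
-/

namespace Pool.Agent.Helper68.Kept.ClosedSurfaces

open _root_.Helper35.PI _root_.Helper32.CL

theorem result :
    cClosed 2 = ((5 / 6 : ℝ) : EReal) ∧ ForcesRound (5 / 6) :=
  Pool.Agent.Helper35.CL.All.tFI

end Pool.Agent.Helper68.Kept.ClosedSurfaces
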